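import Pool.Agent.H31.Kor

set_option autoImplicit false

open Pool.Agent.H31 Set

universe u v

theorem Pool.Agent.Results.MP_f351c6_gt.Neg.result (X : Type u) (G : Type v) [TopologicalSpace X]
    [Nontrivial X] [CommGroup G] (f : G → X)
    (hf : ∀ M : Set G, M.Countable → ∀ p : M → X, ∃ g : G, ∀ x : M, f (x * g) = p x) :
    ¬ (T2Space (range fun (g : G) (x : G) => f (x * g)) ∧
      ParacompactSpace (range fun (g : G) (x : G) => f (x * g))) := by
  rintro ⟨h1, h2⟩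
  have h3 : ∀ a, ∃ g, f g = a := fun a => (hf {1} (countable_singleton _) fun _ => a).elim
    fun g hg => ⟨_, hg ⟨1, rfl⟩⟩
  obtain ⟨a, b, hab⟩ := exists_pair_ne X
  obtain ⟨g, rfl⟩ := h3 a
  obtain ⟨h, rfl⟩ := h3 b
  obtain ⟨a, b, V, h4, h5, h6⟩ : ∃ (a b : X) (V : Set X), IsOpen V ∧ a ∉ V ∧ b ∈ V := by
    by_contra h4
    push Not at h4
    exact hab (by
      simpa using congrFun (congrArg Subtype.val (Inseparable.eq (X := range fun (g : G) (x : G) =>
        f (x * g)) (x := ⟨_, g, rfl⟩) (y := ⟨_, h, rfl⟩) ((subtype_inseparable_iff _ _).2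
        (inseparable_pi.2 fun x => inseparable_iff_forall_isOpen.2 fun V hV =>
          ⟨fun h => by_contra fun h' => h4 _ _ V hV h' h,
            fun h => by_contra fun h' => h4 _ _ V hV h' h⟩)))) 1)
  refine Kor.main h4 h5 ?_ (fun M hM p => ?_) h2
  · rintro _ ⟨k, rfl⟩
    obtain ⟨x, rfl⟩ := h3 b
    exact ⟨x * k⁻¹, by simpa⟩
  · obtain ⟨k, hk⟩ := hf M hM fun x => p x
    exact ⟨_, ⟨k, rfl⟩, fun x hx => hk ⟨x, hx⟩⟩
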